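import Mathlib
import Pool.Agent.Q112.Doi

/-!
# A Doi cocycle deformation that is not a deformation via a matched pair

`H = k⟨g, x | g⁴ = 1, x² = 0, x g = - g x⟩` with `g` group-like and
`Δ(x) = x ⊗ 1 + g ⊗ x`: every unitary cocentral coalgebra map out of `H` is trivial, so
`H_r = H` for every deformation map `r`, while `H` has the cocycle deformation `x² = 1 - g²`.
-/

open scoped TensorProduct

universe u

namespace Pool.Agent.Results.MP_16410b_al.DoiNotMatchedPair

open Pool.Agent.Q112.Doi

/-- Over every field of characteristic different from `2` there are a finite-dimensional Hopf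
algebra `H` and a normalized Sweedler cocycle `s` on `H` such that for every Hopf algebra `A`,
every matched pair `(A, H)` and every deformation map `r`, the algebra `H_r` is not isomorphic
(in particular not equal) to the Doi deformation `H_s`. -/
theorem result (k : Type) [Field k] (h2 : (2 : k) ≠ 0) :
    ∃ (H : Type) (_ : Ring H) (_ : HopfAlgebra k H) (s : SweedlerCocycle k H),
      FiniteDimensional k H ∧
      ∀ (A : Type u) [Ring A] [HopfAlgebra k A] (P : MatchedPair k A H) (r : DeformationMap P),
        ¬ ∃ f : H ≃ₗ[k] H, ∀ a b, f (P.rmul r.r a b) = s.mul (f a ⊗ₜ f b) :=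
  main k h2

end Pool.Agent.Results.MP_16410b_al.DoiNotMatchedPair
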